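import Pool.Agent.H623.WP.P

/-!
The `3x+1` map: uniformly for the slopes `i/k` in compact subsets of `(0, 1)` the law, modulo `3^i`, of the
`k`-th iterate of the `n < 2^k` with exactly `i` odd terms has the dimension `min(1, H(p) / (p log 3))`,
`p = i/k`, `H` the entropy; sets of fewer residues have exponentially small probability.
The critical slope, at which `H(p) = p log 3`, is the slope of the extremal trajectories of the repeated
random walk model: `γ_RRW = 1 / (log 2 - p log 3)`.  At all slopes up to the critical one all but an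
exponentially small proportion of the trajectories which start with the slope `p` become small, with
the expected profile.
-/

set_option autoImplicit false

namespace Pool.Agent.Results.MP_f7abf1_nt.DimensionOfSlopes

open Finset

/-- the `3x+1` function -/
def T (n : ℕ) : ℕ := if n % 2 = 0 then n / 2 else (3 * n + 1) / 2

/-- the number of odd terms among `n, T n, ..., T^(k-1) n` -/
def odds (k n : ℕ) : ℕ := ((range k).filter fun j => T^[j] n % 2 = 1).card

/-- the `n < 2^k` such that exactly `i` of the numbers `n, T n, ..., T^(k-1) n` are odd -/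
def Starts (k i : ℕ) : Finset ℕ := (range (2 ^ k)).filter fun n => odds k n = i

/-- the proportion of the elements of `Starts k i` with the property `P` -/
noncomputable def prob (k i : ℕ) (P : ℕ → Prop) : ℝ :=
  ({n : ℕ | n ∈ Starts k i ∧ P n}.ncard : ℝ) / ((Starts k i).card : ℝ)

/-- the residues modulo `3^i` of the numbers `T^k n` for `n` in `Starts k i` -/
def Residues (k i : ℕ) : Finset ℕ := (Starts k i).image fun n => T^[k] n % 3 ^ i

/-- the number of the `n'` in `Starts k i` whose `k`-th iterate is the one of `n` -/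
def mates (k i n : ℕ) : ℕ := ((Starts k i).filter fun n' => T^[k] n' = T^[k] n).card

/-- `min(1, H(p) / (p log 3))`, where `H(p) = -p log p - (1 - p) log (1 - p)` -/
noncomputable def dim (p : ℝ) : ℝ := min 1 (Real.binEntropy p / (p * Real.log 3))

/-- the function `g` of the problem -/
noncomputable def g (a : ℝ) : ℝ :=
  ⨆ θ : ℝ, (θ * a - Real.log ((1 / 2) * ((2 : ℝ) ^ θ + (2 / 3 : ℝ) ^ θ)))

/-- `n ≥ 2^((1-ε)k)`, the trajectory of `n` reaches a value `≤ 2^(ε k)` at a time `k + m`, and between the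
times `k` and `k + m` the logarithm of `T^(k+j) n` is `i log 3 - (j/2) log (4/3)` up to `ε k` -/
def Descends (ε : ℝ) (k i n : ℕ) : Prop := (2 : ℝ) ^ ((1 - ε) * k) ≤ (n : ℝ) ∧
  ∃ m : ℕ, ((T^[k + m] n : ℕ) : ℝ) ≤ (2 : ℝ) ^ (ε * k) ∧
    ∀ j ≤ m, |Real.log (T^[k + j] n : ℕ) - (i * Real.log 3 - j / 2 * Real.log (4 / 3))| ≤ ε * k

theorem T_eq : T = Pool.Agent.H623.TS.T := rfl

theorem odds_eq (k : ℕ) : ∀ n : ℕ, odds k n = Pool.Agent.H623.TS.odds k n := by
  induction k with
  | zero => intro n; rfl
  | succ k ih =>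
    intro n
    rw [Pool.Agent.H623.TS.odds, ← T_eq, ← ih (T n)]
    unfold odds
    rw [card_filter, card_filter, sum_range_succ']
    simp only [Function.iterate_succ_apply, Function.iterate_zero, id_eq]
    rw [add_comm]
    congr 1
    split_ifs <;> omega

theorem Starts_eq (k i : ℕ) : Starts k i = Pool.Agent.H623.TP.E0 k i := by
  unfold Starts Pool.Agent.H623.TP.E0
  simp only [odds_eq]

theorem mates_eq (k i n : ℕ) : mates k i n = Pool.Agent.H623.WP.Mt k i n := by
  unfold mates Pool.Agent.H623.WP.Mt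
  rw [Starts_eq]
  rfl

theorem Starts_card {k i : ℕ} (h : i ≤ k) : (Starts k i).card = k.choose i := by
  rw [Starts_eq, Pool.Agent.H623.TP.card_E0 h]

theorem prob_le {k i : ℕ} (h : i ≤ k) {P : ℕ → Prop} {ε : ℝ}
    (hP : (Set.ncard {n : ℕ | n ∈ Pool.Agent.H623.TP.E0 k i ∧ P n} : ℝ) ≤ ε * (k.choose i : ℝ)) :
    prob k i P ≤ ε := by
  unfold prob
  have hc : (0 : ℝ) < (k.choose i : ℝ) := by exact_mod_cast Nat.choose_pos h
  rw [Starts_card h, div_le_iff₀ hc, Starts_eq]
  exact hP

theorem exp_conv (x y : ℝ) : (3 : ℝ) ^ (x * y) = Real.exp (x * Real.log 3 * y) := by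
  rw [Real.rpow_def_of_pos (by norm_num)]
  congr 1
  ring

/-- (1) Let `0 < a < b < 1` and `ε > 0`.  There are `c > 0` and `K` such that for all `k ≥ K` and all `i`
with `a k ≤ i ≤ b k`: every set `S` of at most `3^((dim(i/k) - ε) i)` residues contains `T^k n` modulo `3^i`
for at most the proportion `exp(-c k)` of the `n < 2^k` with `i` odd terms; the number of all the
residues lies between `3^((dim(i/k) - ε) i)` and `3^(dim(i/k) i)`; and the logarithm of the number of the
`n'` which meet `n` at the time `k` is `max(0, k H(i/k) - i log 3)` up to `ε i`, except for the proportion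
`exp(-c k)`.

(2) There is `pc` with `0.609 < pc < 0.6091`, `H(pc) = pc log 3` and `dim p = 1` iff `p ≤ pc`; the unique
`γ > (½ log (4/3))⁻¹` with `γ g(1/γ) = 1` is `1 / (log 2 - pc log 3)`; and for all `a, ε > 0` there are `c > 0`
and `K` such that for `k ≥ K` and `a k ≤ i ≤ pc k` all but the proportion `exp(-c k)` of the `n < 2^k` with
`i` odd terms satisfy `Descends ε k i n`. -/
theorem result :
    (∀ a b : ℝ, 0 < a → b < 1 → ∀ ε : ℝ, 0 < ε → ∃ c : ℝ, 0 < c ∧ ∃ K : ℕ, ∀ k : ℕ, K ≤ k →
      ∀ i : ℕ, a * k ≤ i → (i : ℝ) ≤ b * k →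
        (∀ S : Finset ℕ, (S.card : ℝ) ≤ (3 : ℝ) ^ ((dim ((i : ℝ) / k) - ε) * i) →
          prob k i (fun n => T^[k] n % 3 ^ i ∈ S) ≤ Real.exp (-(c * k))) ∧
        (3 : ℝ) ^ ((dim ((i : ℝ) / k) - ε) * i) ≤ ((Residues k i).card : ℝ) ∧
        ((Residues k i).card : ℝ) ≤ (3 : ℝ) ^ (dim ((i : ℝ) / k) * i) ∧
        prob k i (fun n => ¬ |Real.log (mates k i n) -
          max 0 (k * Real.binEntropy ((i : ℝ) / k) - i * Real.log 3)| ≤ ε * i) ≤ Real.exp (-(c * k))) ∧
    ∃ pc : ℝ, 0.609 < pc ∧ pc < 0.6091 ∧ Real.binEntropy pc = pc * Real.log 3 ∧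
      (∀ p : ℝ, 0 < p → p < 1 → (dim p = 1 ↔ p ≤ pc)) ∧
      ((1 / 2) * Real.log (4 / 3))⁻¹ < 1 / (Real.log 2 - pc * Real.log 3) ∧
      (∀ γ : ℝ, ((1 / 2) * Real.log (4 / 3))⁻¹ < γ →
        (γ * g (1 / γ) = 1 ↔ γ = 1 / (Real.log 2 - pc * Real.log 3))) ∧
      ∀ a : ℝ, 0 < a → ∀ ε : ℝ, 0 < ε → ∃ c : ℝ, 0 < c ∧ ∃ K : ℕ, ∀ k : ℕ, K ≤ k →
        ∀ i : ℕ, a * k ≤ i → (i : ℝ) ≤ pc * k →
          prob k i (fun n => ¬ Descends ε k i n) ≤ Real.exp (-(c * k)) := by
  classical
  have hl3 : 0 < Real.log 3 := Real.log_pos (by norm_num)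
  have hl31 : 1 ≤ Real.log 3 := by
    rw [Real.le_log_iff_exp_le (by norm_num)]
    have := Real.exp_one_lt_d9
    linarith
  constructor
  · intro a b ha hb ε hε
    obtain ⟨c1, hc1, K1, hK1⟩ := Pool.Agent.H623.WP.main_unif ha hb hε
    obtain ⟨K2, hK2⟩ := Pool.Agent.H623.WP.cl_lo ha hb hε
    obtain ⟨c4, hc4, K4, hK4⟩ := Pool.Agent.H623.WP.mat ha hb hε
    obtain ⟨K5, hK5⟩ := exists_nat_ge (1 / a)
    refine ⟨min c1 c4, lt_min hc1 hc4, K1 + K2 + K4 + K5 + 1, fun k hk i hi1 hi2 => ?_⟩
    have h1 := hK1 k (by omega) i hi1 hi2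
    have h2 := hK2 k (by omega) i hi1 hi2
    have h4 := hK4 k (by omega) i hi1 hi2
    have hk0 : (0 : ℝ) < k := by exact_mod_cast (show 0 < k by omega)
    have hik : i < k := by
      have : (i : ℝ) < k := by
        refine hi2.trans_lt ?_
        have := mul_lt_mul_of_pos_right hb hk0
        linarith
      exact_mod_cast this
    have hi1' : 1 ≤ i := by
      have h1 : (K5 : ℝ) ≤ k := by exact_mod_cast (show K5 ≤ k by omega)
      have h2 := hK5.trans h1
      rw [div_le_iff₀ ha] at h2
      have : (1 : ℝ) ≤ i := by linarith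
      exact_mod_cast this
    have hi0 : (0 : ℝ) < i := by exact_mod_cast hi1'
    have h3 := Pool.Agent.H623.WP.cl_up hi1' hik
    have hσ0 : 0 < (i : ℝ) / k := by positivity
    have hd : dim ((i : ℝ) / k) * Real.log 3 = Pool.Agent.H623.WP.hs ((i : ℝ) / k) :=
      Pool.Agent.H623.WP.dm_hs hσ0
    have hle : Real.exp ((dim ((i : ℝ) / k) - ε) * Real.log 3 * i) ≤
        Real.exp ((Pool.Agent.H623.WP.hs ((i : ℝ) / k) - ε) * i) := by
      apply Real.exp_le_exp.2
      rw [← hd]
      have : ε * 1 * (i : ℝ) ≤ ε * Real.log 3 * i :=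
        mul_le_mul_of_nonneg_right (mul_le_mul_of_nonneg_left hl31 hε.le) hi0.le
      linarith
    have hres : Residues k i = Pool.Agent.H623.WP.cls k i := by
      unfold Residues Pool.Agent.H623.WP.cls
      rw [Starts_eq]
      rfl
    have he1 : Real.exp (-(c1 * k)) ≤ Real.exp (-(min c1 c4 * k)) := by
      apply Real.exp_le_exp.2
      have := mul_le_mul_of_nonneg_right (min_le_left c1 c4) hk0.le
      linarith
    have he4 : Real.exp (-(c4 * k)) ≤ Real.exp (-(min c1 c4 * k)) := by
      apply Real.exp_le_exp.2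
      have := mul_le_mul_of_nonneg_right (min_le_right c1 c4) hk0.le
      linarith
    refine ⟨fun S hS => ?_, ?_, ?_, ?_⟩
    · refine le_trans ?_ he1
      apply prob_le hik.le
      rw [exp_conv] at hS
      refine le_trans ?_ (h1 S (hS.trans hle))
      rw [← Set.ncard_coe_finset]
      refine le_of_eq ?_
      congr 2
      ext n
      simp only [mem_coe, mem_filter, Set.mem_ofPred_eq]
      rfl
    · rw [exp_conv, hres]
      exact hle.trans h2
    · rw [exp_conv, hres, hd]
      exact h3
    · refine le_trans ?_ he4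
      apply prob_le hik.le
      refine le_trans (le_of_eq ?_) h4
      rw [← Set.ncard_coe_finset]
      congr 2
      ext n
      have hm : max 0 (k * Real.binEntropy ((i : ℝ) / k) - i * Real.log 3) =
          (Real.binEntropy ((i : ℝ) / k) / ((i : ℝ) / k) - Pool.Agent.H623.WP.hs ((i : ℝ) / k)) * i := by
        unfold Pool.Agent.H623.WP.hs
        have e1 : (k : ℝ) * Real.binEntropy ((i : ℝ) / k) = Real.binEntropy ((i : ℝ) / k) / ((i : ℝ) / k) * i := by
          field_simp
        rw [e1]
        rcases le_total (Real.log 3) (Real.binEntropy ((i : ℝ) / k) / ((i : ℝ) / k)) with h | h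
        · rw [min_eq_left h, max_eq_right (by
            have := mul_le_mul_of_nonneg_right h hi0.le
            linarith)]
          ring
        · rw [min_eq_right h, max_eq_left (by
            have := mul_le_mul_of_nonneg_right h hi0.le
            linarith), sub_self, zero_mul]
      simp only [mem_coe, mem_filter, Set.mem_ofPred_eq, mates_eq, hm]
  · obtain ⟨pc, h1, h2, h3, h4, h5⟩ := Pool.Agent.H623.WP.crit
    obtain ⟨h6, h7⟩ := Pool.Agent.H623.WP.gamma_crit h1 h2 h3 h4 h5
    have hpc0 : 0 < pc := lt_trans (by norm_num) h1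
    have hpc1 : pc < 1 := lt_trans h2 (by norm_num)
    refine ⟨pc, h1, h2, h3, ?_, h6, h7, ?_⟩
    · intro p hp0 hp1
      unfold dim
      rw [min_eq_left_iff, le_div_iff₀ (by positivity), one_mul]
      constructor
      · intro h
        by_contra hlt
        rw [not_le] at hlt
        have := h5 p hlt hp1
        linarith
      · intro h
        rcases lt_or_eq_of_le h with h | h
        · exact (h4 p hp0 h).le
        · rw [h, h3]
    · intro a ha ε hε
      have hhs : ∀ σ : ℝ, 0 < σ → σ ≤ pc → Pool.Agent.H623.WP.hs σ = Real.log 3 := by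
        intro σ hσ hσp
        unfold Pool.Agent.H623.WP.hs
        rw [min_eq_left_iff, le_div_iff₀ hσ, mul_comm]
        rcases lt_or_eq_of_le hσp with h | h
        · exact (h4 σ hσ h).le
        · rw [h, h3]
      obtain ⟨c, hc, K, hK⟩ := Pool.Agent.H623.WP.desc ha hpc1 hhs hε
      refine ⟨c, hc, K + 1, fun k hk i hi1 hi2 => ?_⟩
      have hk0 : (0 : ℝ) < k := by exact_mod_cast (show 0 < k by omega)
      have hik : i ≤ k := by
        have : (i : ℝ) ≤ k := by
          refine hi2.trans ?_
          have := mul_le_mul_of_nonneg_right hpc1.le hk0.le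
          linarith
        exact_mod_cast this
      apply prob_le hik
      exact hK k (by omega) i hi1 hi2

end Pool.Agent.Results.MP_f7abf1_nt.DimensionOfSlopes
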