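import Pool.Agent.H618.PM.Lower2
import Pool.Agent.H618.PM.ModelTail

set_option autoImplicit false

/-!
# The random walk model fails for large stopping times in the polynomial `3x+1` model

In the random walk model of Lagarias and Weiss the probability that the total stopping time of `n` exceeds
`alpha log n` is a negative power of `n`, for each `alpha` above the mean value, and the constant `gamma_RRW` is
where the exponent reaches `1`. In the polynomial model of the `3x+1` map over `F_2[x]` the size of `f` is its
degree `n`, and the corresponding random walk starts at `n` and has steps `-1` and `0` of probability `1/2`. So in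
the random walk model the probability that the stopping time is at least `B n` decays exponentially in `n` for each
`B > 2`. We prove that this is wrong for the polynomials: for each `B` the probability that the total stopping time
of a uniformly chosen polynomial of degree `n` is at least `B n` is at least `2^(-40 B n / log n)`; this holds
uniformly for `1 ≤ B ≤ (log n) / 64`.

The main point of the proof is a monotonicity property of the map: the number of odd steps before `1` of a
polynomial `f` does not increase when its lowest coefficients are deleted (`trunc_le`), and the operator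
`f ↦ floor ((x + 1) f / x)` (the odd step, carried out whether `f` is odd or not) lowers it by at most one. As this
operator is periodic on the polynomials of degree `m`, with a period `q ≤ 2 m`, it follows that every
polynomial whose `m + 1` top coefficients are those of `T` has at least `ν(T) - q` odd steps, where `ν(T)`
is the number of odd steps of `T`. We apply this to the polynomials `T` of degree `m` with `ν(T)` of the order
`m log m` of the library, for `m` of the order `B n / log n`.
-/

namespace Pool.Agent.Results.MP_f7abf1_nt.PolynomialLargeDeviations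

open Polynomial

/-- the polynomial analogue of the `3x+1` function `T`: `((x+1) f + 1)/x` if `f` has constant term `1`, and `f/x`
if it has constant term `0` (`divX` is the quotient by `x`) -/
noncomputable def T (f : (ZMod 2)[X]) : (ZMod 2)[X] :=
  if f.coeff 0 = 1 then ((X + 1) * f + 1).divX else f.divX

/-- the total stopping time -/
noncomputable def sigma (f : (ZMod 2)[X]) : ℕ := sInf {k : ℕ | T^[k] f = 1}

/-- the probability that a uniformly chosen polynomial of degree `n` has total stopping time at least `B n` -/
noncomputable def prob (n : ℕ) (B : ℝ) : ℝ :=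
  ({f : (ZMod 2)[X] | f.degree = n ∧ B * n ≤ sigma f}.ncard : ℝ) / 2 ^ n

/-- the probability that a walk which starts at `n` and has independent steps `-1` and `0`, of probability `1/2`
each, reaches `0` at time `n + j` -/
noncomputable def model (n j : ℕ) : ℝ := ((n + j - 1).choose j : ℝ) / 2 ^ (n + j)

/-- the probability that this walk reaches `0` at a time which is at least `B n` -/
noncomputable def modelProb (n : ℕ) (B : ℝ) : ℝ := ∑' j : ℕ, (if B * n ≤ ((n + j : ℕ) : ℝ) then model n j else 0)

/-- All nonzero polynomials reach `1`; in the random walk model the upper tail of the total stopping time decays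
exponentially; for the polynomials it is at least `2 ^ (-40 B n / log n)`. -/
theorem result : (∀ f : (ZMod 2)[X], f ≠ 0 → ∃ k : ℕ, T^[k] f = 1) ∧
    (∀ B : ℝ, 2 < B → ∃ q : ℝ, 0 < q ∧ q < 1 ∧ ∀ n : ℕ, modelProb n B ≤ q ^ n) ∧
    (∀ (n : ℕ) (B : ℝ), 1 ≤ B → 64 * B ≤ Real.log n →
      (2 : ℝ) ^ (-(40 * B * n / Real.log n)) ≤ prob n B) := by
  classical
  refine ⟨fun f hf => ⟨f.natDegree + Pool.Agent.H618.PM.nu f, (Pool.Agent.H618.PM.S_reach _ f hf rfl _).2 le_rfl⟩,
    Pool.Agent.H618.PM.nb_tail, ?_⟩
  intro n B hB hlog
  obtain ⟨E, hE1, hE2⟩ := Pool.Agent.H618.PM.lower_bound n B hB hlog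
  have hfin : {f : (ZMod 2)[X] | f.degree = n ∧ B * n ≤ sigma f}.Finite := by
    apply (Pool.Agent.Q74.FC.D n).finite_toSet.subset
    intro f hf
    exact Pool.Agent.Q74.FC.mem_D.2 hf.1
  have hsub : (E : Set ((ZMod 2)[X])) ⊆ {f : (ZMod 2)[X] | f.degree = n ∧ B * n ≤ sigma f} := by
    intro f hf
    obtain ⟨h1, h2⟩ := hE1 f hf
    refine ⟨Pool.Agent.Q74.FC.mem_D.1 h1, h2.trans ?_⟩
    have h3 := Pool.Agent.Q74.FC.mem_D'.1 h1
    have h4 : sigma f = f.natDegree + Pool.Agent.H618.PM.nu f := Pool.Agent.H618.PM.sm_eq h3.1
    rw [h4]
    push_cast
    have : (0 : ℝ) ≤ f.natDegree := Nat.cast_nonneg _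
    linarith
  have hcard := Set.ncard_le_ncard hsub hfin
  rw [Set.ncard_coe_finset] at hcard
  have hcard' : (E.card : ℝ) ≤ ({f : (ZMod 2)[X] | f.degree = n ∧ B * n ≤ sigma f}.ncard : ℝ) := by
    exact_mod_cast hcard
  unfold prob
  rw [le_div_iff₀ (by positivity)]
  refine le_trans ?_ (hE2.trans hcard')
  rw [← Real.rpow_natCast, ← Real.rpow_add (by norm_num)]
  apply le_of_eq
  congr 1
  ring

end Pool.Agent.Results.MP_f7abf1_nt.PolynomialLargeDeviations
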