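import Pool.Agent.H618.PM.TV

set_option autoImplicit false

/-!
# The random walk model is correct in total variation for the polynomial `3x+1` map

In the random walk model of Lagarias and Weiss the total stopping time of `n` is the time a walk started at
`log n`, with steps `-log 2` and `log 3 - log 2` of probability `1/2`, needs to become nonpositive. In the
polynomial model of the `3x+1` map over `F_2[x]` (`f ↦ f/x` or `((x+1)f + 1)/x`) the size of `f` is its degree, and
the steps of the walk are `-1` and `0`; so a walk started at `n` reaches `0` at time `n + j` with the probability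
`binom(n+j-1, j) 2^(-n-j)` (negative binomial law). We prove that the law of the total stopping time of a
uniformly chosen polynomial of degree `n` is at distance `O(n^(-1/2))` from this law in total variation.

In particular `(sigma - 2n) / sqrt (2n)` satisfies the central limit theorem with an error `O(n^(-1/2))`. The first `n` parities of a random polynomial are fair bits; they bring the degree down to about
`n/2` only, so the content of the theorem is in the parities after time `n`, which are determined by the first `n`.

Proof. The value at `1` of a random polynomial of degree `n` is forgotten after `n - 1` accelerated steps up to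
an error smaller than every power of `1/n` (fine scale mixing, by decay of the characteristic function of the
Syracuse random variables of the model). So up to such an error the law in degree `n + 1` is the convolution of the
law in degree `n` with the geometric law. The errors are multiplied by `(n - m)^(-1/2)`, as they
are differences of laws and act on functions which have been averaged `n - m` times.
-/

namespace Pool.Agent.Results.MP_f7abf1_nt.PolynomialRandomWalkLaw

open Polynomial

/-- the polynomial analogue of the `3x+1` function `T`: `((x+1) f + 1)/x` if `f` has constant term `1`, and `f/x`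
if it has constant term `0` (`divX` is the quotient by `x`) -/
noncomputable def T (f : (ZMod 2)[X]) : (ZMod 2)[X] :=
  if f.coeff 0 = 1 then ((X + 1) * f + 1).divX else f.divX

/-- the total stopping time -/
noncomputable def sigma (f : (ZMod 2)[X]) : ℕ := sInf {k : ℕ | T^[k] f = 1}

/-- the probability that a uniformly chosen polynomial of degree `n` has total stopping time `k` -/
noncomputable def law (n k : ℕ) : ℝ := ({f : (ZMod 2)[X] | f.degree = n ∧ sigma f = k}.ncard : ℝ) / 2 ^ n

/-- the probability that a walk which starts at `n` and has independent steps `-1` and `0`, of probability `1/2`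
each, reaches `0` at time `n + j` -/
noncomputable def model (n j : ℕ) : ℝ := ((n + j - 1).choose j : ℝ) / 2 ^ (n + j)

theorem law_eq (n j : ℕ) : law n (n + j) = Pool.Agent.H618.PM.pr n j := by
  classical
  unfold law Pool.Agent.H618.PM.pr
  have h : {f : (ZMod 2)[X] | f.degree = n ∧ sigma f = n + j} =
      ((Pool.Agent.Q74.FC.D n).filter (fun f => Pool.Agent.H618.PM.nu f = j) : Finset ((ZMod 2)[X])) := by
    ext f
    simp only [Set.mem_ofPred_eq, Finset.coe_filter, Pool.Agent.Q74.FC.mem_D]
    constructor
    · rintro ⟨h1, h2⟩
      refine ⟨h1, ?_⟩
      have h3 := Pool.Agent.Q74.FC.mem_D'.1 (Pool.Agent.Q74.FC.mem_D.2 h1)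
      have h4 : sigma f = f.natDegree + Pool.Agent.H618.PM.nu f := Pool.Agent.H618.PM.sm_eq h3.1
      omega
    · rintro ⟨h1, h2⟩
      refine ⟨h1, ?_⟩
      have h3 := Pool.Agent.Q74.FC.mem_D'.1 (Pool.Agent.Q74.FC.mem_D.2 h1)
      have h4 : sigma f = f.natDegree + Pool.Agent.H618.PM.nu f := Pool.Agent.H618.PM.sm_eq h3.1
      omega
  rw [h, Set.ncard_coe_finset]

/-- The law of the total stopping time of a random polynomial of degree `n` is at distance at most `C / √n`
from the law predicted by the random walk model. -/
theorem result : (∀ f : (ZMod 2)[X], f ≠ 0 → (∃ k : ℕ, T^[k] f = 1) ∧ f.natDegree ≤ sigma f) ∧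
    ∃ C : ℝ, ∀ n : ℕ, 1 ≤ n → Summable (fun j : ℕ => |law n (n + j) - model n j|) ∧
      ∑' j : ℕ, |law n (n + j) - model n j| ≤ C / √n := by
  refine ⟨fun f hf => ⟨⟨f.natDegree + Pool.Agent.H618.PM.nu f, ?_⟩, ?_⟩, ?_⟩
  · exact (Pool.Agent.H618.PM.S_reach _ f hf rfl _).2 le_rfl
  · have h4 : sigma f = f.natDegree + Pool.Agent.H618.PM.nu f := Pool.Agent.H618.PM.sm_eq hf
    omega
  · obtain ⟨C, _, h⟩ := Pool.Agent.H618.PM.total_variation
    refine ⟨C, fun n hn => ?_⟩
    have h1 : (fun j : ℕ => |law n (n + j) - model n j|) =
        fun j => |Pool.Agent.H618.PM.pr n j - Pool.Agent.H618.PM.nb n j| := by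
      funext j
      rw [law_eq]
      rfl
    rw [h1]
    exact h n hn

end Pool.Agent.Results.MP_f7abf1_nt.PolynomialRandomWalkLaw
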